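import Pool.Agent.U398.MV.Stm5

set_option autoImplicit false

/-! # Project MV5, package KLB (helper741): products of window counts at the zeros of a block -/

open Finset

namespace Pool.Agent.U741.MV5

open Pool.Agent.U398.MV

theorem h_bounds {s1 s2 : ℝ} (h1 : 0 < s1) (h12 : s1 ≤ s2) :
    (s2 - s1) * Real.log s1 ≤ (s2 * Real.log s2 - s2) - (s1 * Real.log s1 - s1) ∧
    (s2 * Real.log s2 - s2) - (s1 * Real.log s1 - s1) ≤ (s2 - s1) * Real.log s2 := by
  have h2 : 0 < s2 := h1.trans_le h12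
  have hl : Real.log s2 - Real.log s1 = Real.log (s2 / s1) := (Real.log_div h2.ne' h1.ne').symm
  have u1 : s1 * (Real.log s2 - Real.log s1) ≤ s2 - s1 := by
    rw [hl]
    have h3 : s1 * Real.log (s2 / s1) ≤ s1 * (s2 / s1 - 1) :=
      mul_le_mul_of_nonneg_left (Real.log_le_sub_one_of_pos (div_pos h2 h1)) h1.le
    have h4 : s1 * (s2 / s1 - 1) = s2 - s1 := by field_simp
    linarith
  have u2 : s2 - s1 ≤ s2 * (Real.log s2 - Real.log s1) := by
    rw [hl]
    have h3 : s2 * (1 - (s2 / s1)⁻¹) ≤ s2 * Real.log (s2 / s1) :=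
      mul_le_mul_of_nonneg_left (Real.one_sub_inv_le_log_of_pos (div_pos h2 h1)) h2.le
    have h4 : s2 * (1 - (s2 / s1)⁻¹) = s2 - s1 := by field_simp
    linarith
  constructor
  · have e : (s2 * Real.log s2 - s2) - (s1 * Real.log s1 - s1) =
        (s2 - s1) * Real.log s1 + (s2 * (Real.log s2 - Real.log s1) - (s2 - s1)) := by ring
    rw [e]
    linarith
  · have e : (s2 * Real.log s2 - s2) - (s1 * Real.log s1 - s1) =
        (s2 - s1) * Real.log s2 + (s1 * (Real.log s2 - Real.log s1) - (s2 - s1)) := by ring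
    rw [e]
    linarith

theorem Mf_diff {t1 t2 : ℝ} (h1 : 0 < t1) (h12 : t1 ≤ t2) :
    (t2 - t1) / (2 * Real.pi) * Real.log (t1 / (2 * Real.pi)) ≤ Mf t2 - Mf t1 ∧
    Mf t2 - Mf t1 ≤ (t2 - t1) / (2 * Real.pi) * Real.log (t2 / (2 * Real.pi)) := by
  have hp : 0 < 2 * Real.pi := by positivity
  have h := h_bounds (s1 := t1 / (2 * Real.pi)) (s2 := t2 / (2 * Real.pi)) (by positivity)
    (div_le_div_of_nonneg_right h12 hp.le)
  unfold Mf
  rw [sub_div]
  exact h

theorem Mf_local {T t1 t2 : ℝ} (hT : 10 ≤ T) (h1 : T - 1 ≤ t1) (h12 : t1 ≤ t2) (h2 : t2 ≤ 2 * T + 1)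
    (h3 : t2 - t1 ≤ 2) : |Mf t2 - Mf t1 - (t2 - t1) * Real.log T / (2 * Real.pi)| ≤ 1 := by
  have hpi3 := Real.pi_gt_three
  have hpi4 := Real.pi_lt_d2
  have hp : 0 < 2 * Real.pi := by positivity
  obtain ⟨ha, hb⟩ := Mf_diff (t1 := t1) (t2 := t2) (by linarith) h12
  have l2 : Real.log (t2 / (2 * Real.pi)) ≤ Real.log T := by
    apply Real.log_le_log (div_pos (by linarith) hp)
    rw [div_le_iff₀ hp]
    nlinarith
  have l1 : Real.log T - 3 ≤ Real.log (t1 / (2 * Real.pi)) := by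
    have h8 : Real.log (T / 8) ≤ Real.log (t1 / (2 * Real.pi)) := by
      apply Real.log_le_log (by positivity)
      rw [le_div_iff₀ hp]
      nlinarith
    rw [Real.log_div (by linarith) (by norm_num)] at h8
    have h9 : Real.log 8 = 3 * Real.log 2 := by
      rw [show (8 : ℝ) = 2 ^ 3 by norm_num, Real.log_pow]
      norm_num
    have := Real.log_two_lt_d9
    linarith
  have hd : 0 ≤ (t2 - t1) / (2 * Real.pi) := div_nonneg (by linarith) hp.le
  have hd1 : (t2 - t1) / (2 * Real.pi) ≤ 1 / 3 := by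
    rw [div_le_iff₀ hp]
    linarith
  have e : (t2 - t1) * Real.log T / (2 * Real.pi) = (t2 - t1) / (2 * Real.pi) * Real.log T := by ring
  rw [e, abs_le]
  constructor
  · nlinarith [mul_le_mul_of_nonneg_left l1 hd]
  · nlinarith [mul_le_mul_of_nonneg_left l2 hd]

theorem log_pow_le (m : ℕ) (hm : 1 ≤ m) {u : ℝ} (hu : 1 ≤ u) :
    (1 + Real.log u) ^ m ≤ (m : ℝ) ^ m * u := by
  have hm1 : (1 : ℝ) ≤ m := by exact_mod_cast hm
  have hm0 : (0 : ℝ) < m := by linarith
  have hl : 0 ≤ Real.log u := Real.log_nonneg hu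
  have h1 : 1 + Real.log u ≤ m * Real.exp (Real.log u / m) := by
    have h2 := Real.add_one_le_exp (Real.log u / m)
    have h3 : (m : ℝ) * (Real.log u / m + 1) ≤ m * Real.exp (Real.log u / m) :=
      mul_le_mul_of_nonneg_left h2 hm0.le
    have h4 : (m : ℝ) * (Real.log u / m + 1) = Real.log u + m := by field_simp
    linarith
  calc (1 + Real.log u) ^ m ≤ (m * Real.exp (Real.log u / m)) ^ m :=
        pow_le_pow_left₀ (by linarith) h1 m
    _ = (m : ℝ) ^ m * u := by
        rw [mul_pow, ← Real.exp_nat_mul]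
        have : (m : ℝ) * (Real.log u / m) = Real.log u := by field_simp
        rw [this, Real.exp_log (by linarith)]

theorem prod_le {ι : Type*} (I : Finset ι) (hI : I.Nonempty) (w : ι → ℝ) (hw : ∀ i ∈ I, 1 ≤ w i) (p : ℕ)
    (hp : I.card ≤ p) : ∏ i ∈ I, w i ≤ ∑ i ∈ I, w i ^ p := by
  obtain ⟨i0, hi0, hmax⟩ := I.exists_max_image w hI
  have h1 : ∏ i ∈ I, w i ≤ w i0 ^ I.card := by
    rw [← Finset.prod_const]
    exact Finset.prod_le_prod (fun i hi => by linarith [hw i hi]) hmax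
  have h2 : w i0 ^ I.card ≤ w i0 ^ p := pow_le_pow_right₀ (hw i0 hi0) hp
  have h3 : w i0 ^ p ≤ ∑ i ∈ I, w i ^ p :=
    Finset.single_le_sum (f := fun i => w i ^ p) (fun i hi => pow_nonneg (by linarith [hw i hi]) p) hi0
  linarith

theorem pow_split (m : ℕ) (d : ℝ) : (1 + |d|) ^ (2 * m) ≤ 4 ^ m * (1 + d ^ (2 * m)) := by
  have h0 : 0 ≤ |d| := abs_nonneg d
  have hd : d ^ (2 * m) = |d| ^ (2 * m) := by rw [pow_mul, pow_mul, sq_abs]
  have h4 : (4 : ℝ) ^ m = 2 ^ (2 * m) := by rw [pow_mul]; norm_num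
  rw [hd, h4]
  rcases le_total |d| 1 with h | h
  · calc (1 + |d|) ^ (2 * m) ≤ 2 ^ (2 * m) := pow_le_pow_left₀ (by linarith) (by linarith) _
      _ = 2 ^ (2 * m) * 1 := by ring
      _ ≤ 2 ^ (2 * m) * (1 + |d| ^ (2 * m)) := by
        apply mul_le_mul_of_nonneg_left _ (by positivity)
        have : 0 ≤ |d| ^ (2 * m) := by positivity
        linarith
  · calc (1 + |d|) ^ (2 * m) ≤ (2 * |d|) ^ (2 * m) := pow_le_pow_left₀ (by linarith) (by linarith) _
      _ = 2 ^ (2 * m) * |d| ^ (2 * m) := by rw [mul_pow]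
      _ ≤ 2 ^ (2 * m) * (1 + |d| ^ (2 * m)) := by
        apply mul_le_mul_of_nonneg_left _ (by positivity)
        linarith

set_option maxHeartbeats 2000000 in
/-- **Package KLB.** -/
theorem t_KLB (N : ℝ → ℕ) (g : ℕ → ℝ) : J_KLB N g := by
  classical
  intro hFO hKM hPU C1 hC1 hc hMom m hm
  obtain ⟨CF, TF, hCF, hTF, hF⟩ := hFO
  obtain ⟨CK, TK, hCK, hTK, hK⟩ := hKM hPU N g C1 hC1 hc hMom m
  obtain ⟨T0, hT0⟩ : ∃ T0, T0 = max TF TK := ⟨_, rfl⟩
  -- the constants
  obtain ⟨CS, hCS⟩ : ∃ CS : ℝ, CS = 2 + 3 * C1 := ⟨_, rfl⟩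
  obtain ⟨CP, hCP⟩ : ∃ CP : ℝ, CP = m * (4 ^ m * (CS + CK * (m : ℝ) ^ m)) := ⟨_, rfl⟩
  have hCS0 : 0 < CS := by rw [hCS]; linarith
  have hCP0 : 0 ≤ CP := by rw [hCP]; positivity
  refine ⟨2 ^ m * (2 * CF + CP) + CS, T0, by positivity, hT0 ▸ hTF.trans (le_max_left _ _), ?_⟩
  intro T hT X hX1 hX2 x y hxy
  have hTF' : TF ≤ T := (le_max_left TF TK).trans (hT0 ▸ hT)
  have hTK' : TK ≤ T := (le_max_right TF TK).trans (hT0 ▸ hT)
  have hT10 : 10 ≤ T := hTF.trans hTF'
  have hpi3 := Real.pi_gt_three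
  have hpi4 := Real.pi_lt_d2
  have hp : 0 < 2 * Real.pi := by positivity
  obtain ⟨L, hL⟩ : ∃ L, L = Real.log T := ⟨_, rfl⟩
  rw [← hL] at hX1 ⊢
  have hL1 : 1 ≤ L := by
    rw [hL, Real.le_log_iff_exp_le (by linarith)]
    have := Real.exp_one_lt_d9
    linarith
  have hL0 : 0 < L := by linarith
  have hu : 1 ≤ X * L := by rwa [div_le_iff₀ hL0] at hX1
  have hX0 : 0 < X := by
    by_contra hcon
    have : X * L ≤ 0 := mul_nonpos_of_nonpos_of_nonneg (not_lt.1 hcon) hL0.le
    linarith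
  have hTL : 0 < T * L := by positivity
  obtain ⟨S, hS⟩ : ∃ S, S = Finset.Ioc (N T) (N (2 * T)) := ⟨_, rfl⟩
  rw [← hS]
  have hgn : ∀ n ∈ S, T < g n ∧ g n ≤ 2 * T := by
    intro n hn
    rw [hS, Finset.mem_Ioc] at hn
    have hn1 : 1 ≤ n := by omega
    exact ⟨not_le.1 (fun h => by have := (hc.gc n hn1 T).1 h; omega), (hc.gc n hn1 (2 * T)).2 hn.2⟩
  -- the number of zeros
  have hcard : |(S.card : ℝ) - T * L / (2 * Real.pi)| ≤ (1 + 3 * C1) * T := by
    have h1 : (S.card : ℝ) = (N (2 * T) : ℝ) - N T := by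
      rw [hS, Nat.card_Ioc, Nat.cast_sub (hc.mono (by linarith))]
    have h2 : (N (2 * T) : ℝ) - N T = (Mf (2 * T) - Mf T) + (sg N (2 * T) - sg N T) := by
      unfold sg
      ring
    have h3 := hc.rvm (2 * T) (by linarith)
    have h4 := hc.rvm T hT10
    have h5 : Real.log (2 * T) ≤ 2 * T := (Real.log_le_sub_one_of_pos (by linarith)).trans (by linarith)
    have h6 : Real.log T ≤ T := (Real.log_le_sub_one_of_pos (by linarith)).trans (by linarith)
    have h7 : |sg N (2 * T)| ≤ C1 * (2 * T) := h3.trans (mul_le_mul_of_nonneg_left h5 (by linarith))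
    have h8 : |sg N T| ≤ C1 * T := h4.trans (mul_le_mul_of_nonneg_left h6 (by linarith))
    obtain ⟨h9, h10⟩ := Mf_diff (t1 := T) (t2 := 2 * T) (by linarith) (by linarith)
    have e1 : 2 * T - T = T := by ring
    rw [e1] at h9 h10
    have l2 : Real.log (2 * T / (2 * Real.pi)) ≤ L := by
      rw [hL]
      apply Real.log_le_log (by positivity)
      rw [div_le_iff₀ hp]
      nlinarith
    have l1 : L - 3 ≤ Real.log (T / (2 * Real.pi)) := by
      have h8 : Real.log (T / 8) ≤ Real.log (T / (2 * Real.pi)) := by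
        apply Real.log_le_log (by positivity)
        apply div_le_div_of_nonneg_left (by linarith) hp (by linarith)
      rw [Real.log_div (by linarith) (by norm_num), ← hL] at h8
      have h9 : Real.log 8 = 3 * Real.log 2 := by
        rw [show (8 : ℝ) = 2 ^ 3 by norm_num, Real.log_pow]
        norm_num
      have := Real.log_two_lt_d9
      linarith
    have hd : 0 ≤ T / (2 * Real.pi) := by positivity
    have hd1 : T / (2 * Real.pi) ≤ T / 6 := div_le_div_of_nonneg_left (by linarith) (by norm_num) (by linarith)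
    have m1 := mul_le_mul_of_nonneg_left l1 hd
    have m2 := mul_le_mul_of_nonneg_left l2 hd
    have e : T * L / (2 * Real.pi) = T / (2 * Real.pi) * L := by ring
    rw [h1, h2, e]
    obtain ⟨a1, a2⟩ := abs_le.1 h7
    obtain ⟨a3, a4⟩ := abs_le.1 h8
    rw [abs_le]
    constructor
    · linarith
    · linarith
  have hcard2 : (S.card : ℝ) ≤ CS * (T * L) := by
    have h1 := (abs_le.1 hcard).2
    have h2 : T * L / (2 * Real.pi) ≤ T * L := div_le_self hTL.le (by linarith)
    have h3 : T ≤ T * L := le_mul_of_one_le_right (by linarith) hL1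
    have h4 : (1 + 3 * C1) * T ≤ (1 + 3 * C1) * (T * L) := mul_le_mul_of_nonneg_left h3 (by linarith)
    rw [hCS]
    nlinarith
  -- the pieces
  obtain ⟨a, ha⟩ : ∃ a : Fin m → ℝ, ∀ i, a i = (y i - x i) * L / (2 * Real.pi) := ⟨_, fun _ => rfl⟩
  obtain ⟨R, hR⟩ : ∃ R : ℕ → Fin m → ℝ, ∀ n i, R n i = ((N (g n + y i) : ℝ) - N (g n + x i)) - a i :=
    ⟨_, fun _ _ => rfl⟩
  obtain ⟨d, hd⟩ : ∃ d : ℕ → Fin m → ℝ, ∀ n i, d n i = sg N (g n + y i) - sg N (g n + x i) :=
    ⟨_, fun _ _ => rfl⟩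
  have ha0 : ∀ i, 0 ≤ a i := fun i => by
    rw [ha]
    have := hxy i
    apply div_nonneg (mul_nonneg (by linarith) hL0.le) hp.le
  have hau : ∀ i, a i ≤ X * L := fun i => by
    rw [ha, div_le_iff₀ hp]
    have := hxy i
    have h1 : (y i - x i) * L ≤ (2 * X) * L := mul_le_mul_of_nonneg_right (by linarith) hL0.le
    nlinarith
  have hRd : ∀ n ∈ S, ∀ i, |R n i| ≤ 1 + |d n i| := by
    intro n hn i
    obtain ⟨hn1, hn2⟩ := hgn n hn
    have hx := hxy i
    have h1 := Mf_local (T := T) (t1 := g n + x i) (t2 := g n + y i) hT10 (by linarith) (by linarith)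
      (by linarith) (by linarith)
    have e : R n i = (Mf (g n + y i) - Mf (g n + x i) - (g n + y i - (g n + x i)) * Real.log T /
        (2 * Real.pi)) + d n i := by
      rw [hR, hd, ha, ← hL]
      unfold sg
      ring
    rw [e]
    exact (abs_add_le _ _).trans (by linarith)
  -- single factors
  have h_one : ∀ i, |∑ n ∈ S, R n i| ≤ 2 * CF * (T * L) := by
    intro i
    have hx := hxy i
    have h1 := hF T hTF' (y i) (by rw [abs_le]; constructor <;> linarith)
    have h2 := hF T hTF' (x i) (by rw [abs_le]; constructor <;> linarith)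
    rw [← hS, ← hL] at h1 h2
    have e : ∑ n ∈ S, R n i =
        (∑ n ∈ S, ((N (g n + y i) : ℝ) - N (g n) - y i * L / (2 * Real.pi))) -
        ∑ n ∈ S, ((N (g n + x i) : ℝ) - N (g n) - x i * L / (2 * Real.pi)) := by
      rw [← sum_sub_distrib]
      refine sum_congr rfl fun n _ => ?_
      rw [hR, ha]
      ring
    rw [e]
    refine (abs_sub _ _).trans ?_
    linarith
  -- several factors
  have h_many : ∀ I : Finset (Fin m), I.Nonempty → |∑ n ∈ S, ∏ i ∈ I, R n i| ≤ CP * (X * L) * (T * L) := by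
    intro I hI
    have h1 : |∑ n ∈ S, ∏ i ∈ I, R n i| ≤ ∑ n ∈ S, ∑ i : Fin m, 4 ^ m * (1 + d n i ^ (2 * m)) := by
      refine (abs_sum_le_sum_abs _ _).trans (sum_le_sum fun n hn => ?_)
      rw [abs_prod]
      have h2 : ∏ i ∈ I, |R n i| ≤ ∏ i ∈ I, (1 + |d n i|) :=
        prod_le_prod (fun i _ => abs_nonneg _) (fun i _ => hRd n hn i)
      have h3 : ∏ i ∈ I, (1 + |d n i|) ≤ ∑ i ∈ I, (1 + |d n i|) ^ (2 * m) := by
        refine prod_le I hI _ (fun i _ => by linarith [abs_nonneg (d n i)]) _ ?_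
        have := card_le_univ I
        rw [Fintype.card_fin] at this
        omega
      have h4 : ∑ i ∈ I, (1 + |d n i|) ^ (2 * m) ≤ ∑ i ∈ I, 4 ^ m * (1 + d n i ^ (2 * m)) :=
        sum_le_sum fun i _ => pow_split m _
      have h5 : ∑ i ∈ I, (4 : ℝ) ^ m * (1 + d n i ^ (2 * m)) ≤ ∑ i : Fin m, 4 ^ m * (1 + d n i ^ (2 * m)) := by
        refine sum_le_sum_of_subset_of_nonneg (subset_univ I) fun i _ _ => ?_
        have : 0 ≤ d n i ^ (2 * m) := by rw [pow_mul]; positivity
        positivity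
      linarith
    refine h1.trans ?_
    rw [sum_comm]
    have h6 : ∀ i : Fin m, ∑ n ∈ S, (4 : ℝ) ^ m * (1 + d n i ^ (2 * m)) ≤
        4 ^ m * (CS + CK * (m : ℝ) ^ m) * (X * L) * (T * L) := by
      intro i
      have hx := hxy i
      have h7 := hK T hTK' X (x i) (y i) (by rw [← hL]; rwa [div_le_iff₀ hL0]) hX2
        (by rw [abs_le]; constructor <;> linarith) (by rw [abs_le]; constructor <;> linarith)
      rw [← hS, ← hL] at h7
      have h8 : ∑ n ∈ S, d n i ^ (2 * m) ≤ CK * (T * L) * (1 + Real.log (X * L)) ^ m := by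
        refine le_trans (le_of_eq (sum_congr rfl fun n _ => ?_)) h7
        rw [hd]
      have h9 := log_pow_le m hm hu
      have h10 : CK * (T * L) * (1 + Real.log (X * L)) ^ m ≤ CK * (T * L) * ((m : ℝ) ^ m * (X * L)) :=
        mul_le_mul_of_nonneg_left h9 (by positivity)
      rw [← mul_sum, sum_add_distrib, sum_const, nsmul_eq_mul, mul_one]
      have h11 : (S.card : ℝ) ≤ CS * (T * L) * (X * L) := by
        refine hcard2.trans ?_
        exact le_mul_of_one_le_right (by positivity) hu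
      have h12 : (4 : ℝ) ^ m * ((S.card : ℝ) + ∑ n ∈ S, d n i ^ (2 * m)) ≤
          4 ^ m * (CS * (T * L) * (X * L) + CK * (T * L) * ((m : ℝ) ^ m * (X * L))) :=
        mul_le_mul_of_nonneg_left (by linarith) (by positivity)
      refine h12.trans (le_of_eq ?_)
      ring
    refine (sum_le_sum fun i _ => h6 i).trans ?_
    rw [sum_const, card_univ, Fintype.card_fin, nsmul_eq_mul, hCP]
    exact le_of_eq (by ring)
  -- expansion
  have hexp : ∑ n ∈ S, ∏ i, ((N (g n + y i) : ℝ) - N (g n + x i)) =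
      ∑ t ∈ (univ : Finset (Fin m)).powerset, (∏ i ∈ t, a i) * ∑ n ∈ S, ∏ i ∈ univ \ t, R n i := by
    simp only [mul_sum]
    rw [sum_comm]
    refine sum_congr rfl fun n _ => ?_
    rw [← prod_add]
    refine prod_congr rfl fun i _ => ?_
    rw [hR]
    ring
  have hprod : ∏ i, ((y i - x i) * L / (2 * Real.pi)) = ∏ i, a i := prod_congr rfl fun i _ => (ha i).symm
  rw [hexp, hprod, ← add_sum_erase _ _ (mem_powerset_self (univ : Finset (Fin m))), Finset.sdiff_self]
  have hsimp : ∑ n ∈ S, ∏ i ∈ (∅ : Finset (Fin m)), R n i = (S.card : ℝ) := by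
    simp only [prod_empty, sum_const, nsmul_eq_mul, mul_one]
  rw [hsimp]
  have hterm : ∀ t ∈ (univ : Finset (Fin m)).powerset.erase univ,
      |(∏ i ∈ t, a i) * ∑ n ∈ S, ∏ i ∈ univ \ t, R n i| ≤
        (2 * CF + CP) * (X * L) ^ (m - 1) * (T * L) := by
    intro t ht
    have htu : t ≠ univ := (mem_erase.1 ht).1
    have hne : (univ \ t).Nonempty := by
      rw [nonempty_iff_ne_empty]
      intro h
      exact htu (univ_subset_iff.1 (sdiff_eq_empty_iff_subset.1 h))
    have hcardt : (univ \ t).card + t.card = m := by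
      rw [card_sdiff_add_card_eq_card (subset_univ t), card_univ, Fintype.card_fin]
    have hpa0 : 0 ≤ ∏ i ∈ t, a i := prod_nonneg fun i _ => ha0 i
    have hpa : ∏ i ∈ t, a i ≤ (X * L) ^ t.card := by
      rw [← prod_const]
      exact prod_le_prod (fun i _ => ha0 i) (fun i _ => hau i)
    have hXL0 : 0 ≤ X * L := by linarith
    rw [abs_mul, abs_of_nonneg hpa0]
    have hc1 : 1 ≤ (univ \ t).card := card_pos.2 hne
    rcases eq_or_lt_of_le hc1 with h1 | h1
    · obtain ⟨i, hi⟩ := card_eq_one.1 h1.symm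
      rw [hi]
      simp only [prod_singleton]
      have hm1 : t.card = m - 1 := by omega
      rw [hm1] at hpa
      calc (∏ i ∈ t, a i) * |∑ n ∈ S, R n i| ≤ (X * L) ^ (m - 1) * (2 * CF * (T * L)) :=
            mul_le_mul hpa (h_one i) (abs_nonneg _) (by positivity)
        _ ≤ (2 * CF + CP) * (X * L) ^ (m - 1) * (T * L) := by
            have : 0 ≤ CP * (X * L) ^ (m - 1) * (T * L) := by positivity
            nlinarith
    · calc (∏ i ∈ t, a i) * |∑ n ∈ S, ∏ i ∈ univ \ t, R n i| ≤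
            (X * L) ^ t.card * (CP * (X * L) * (T * L)) :=
            mul_le_mul hpa (h_many _ hne) (abs_nonneg _) (by positivity)
        _ = CP * (X * L) ^ (t.card + 1) * (T * L) := by ring
        _ ≤ CP * (X * L) ^ (m - 1) * (T * L) := by
            apply mul_le_mul_of_nonneg_right _ hTL.le
            apply mul_le_mul_of_nonneg_left _ hCP0
            exact pow_le_pow_right₀ hu (by omega)
        _ ≤ (2 * CF + CP) * (X * L) ^ (m - 1) * (T * L) := by
            have : 0 ≤ 2 * CF * (X * L) ^ (m - 1) * (T * L) := by positivity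
            nlinarith
  have hsum : |∑ t ∈ (univ : Finset (Fin m)).powerset.erase univ,
      (∏ i ∈ t, a i) * ∑ n ∈ S, ∏ i ∈ univ \ t, R n i| ≤
        2 ^ m * ((2 * CF + CP) * (X * L) ^ (m - 1) * (T * L)) := by
    refine (abs_sum_le_sum_abs _ _).trans ((sum_le_sum hterm).trans ?_)
    rw [sum_const, nsmul_eq_mul]
    apply mul_le_mul_of_nonneg_right _ (by positivity)
    have h1 : ((univ : Finset (Fin m)).powerset.erase univ).card ≤ 2 ^ m := by
      refine (card_erase_le).trans ?_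
      rw [card_powerset, card_univ, Fintype.card_fin]
    exact_mod_cast h1
  have hmain : |(∏ i, a i) * (S.card : ℝ) - T * L / (2 * Real.pi) * ∏ i, a i| ≤
      CS * (X * L) ^ (m - 1) * (T * L) := by
    have e : (∏ i, a i) * (S.card : ℝ) - T * L / (2 * Real.pi) * ∏ i, a i =
        (∏ i, a i) * ((S.card : ℝ) - T * L / (2 * Real.pi)) := by ring
    have hpa0 : 0 ≤ ∏ i, a i := prod_nonneg fun i _ => ha0 i
    have hpa : ∏ i, a i ≤ (X * L) ^ m := by
      have := prod_le_prod (s := (univ : Finset (Fin m))) (fun i _ => ha0 i) (fun i _ => hau i)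
      rwa [prod_const, card_univ, Fintype.card_fin] at this
    rw [e, abs_mul, abs_of_nonneg hpa0]
    obtain ⟨k, rfl⟩ : ∃ k, m = k + 1 := ⟨m - 1, by omega⟩
    calc (∏ i, a i) * |(S.card : ℝ) - T * L / (2 * Real.pi)| ≤ (X * L) ^ (k + 1) * ((1 + 3 * C1) * T) :=
          mul_le_mul hpa hcard (abs_nonneg _) (by positivity)
      _ = (1 + 3 * C1) * X * ((X * L) ^ k * (T * L)) := by ring
      _ ≤ CS * ((X * L) ^ k * (T * L)) := by
          apply mul_le_mul_of_nonneg_right _ (by positivity)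
          rw [hCS]
          nlinarith
      _ = CS * (X * L) ^ (k + 1 - 1) * (T * L) := by
          rw [Nat.add_sub_cancel]
          ring
  have e : (∏ i, a i) * (S.card : ℝ) + (∑ t ∈ (univ : Finset (Fin m)).powerset.erase univ,
      (∏ i ∈ t, a i) * ∑ n ∈ S, ∏ i ∈ univ \ t, R n i) - T * L / (2 * Real.pi) * ∏ i, a i =
      (∑ t ∈ (univ : Finset (Fin m)).powerset.erase univ,
      (∏ i ∈ t, a i) * ∑ n ∈ S, ∏ i ∈ univ \ t, R n i) +
      ((∏ i, a i) * (S.card : ℝ) - T * L / (2 * Real.pi) * ∏ i, a i) := by ring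
  rw [e]
  refine (abs_add_le _ _).trans ?_
  refine (add_le_add hsum hmain).trans (le_of_eq ?_)
  ring

end Pool.Agent.U741.MV5
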